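import Pool.Agent.Helper205_Exc.FormsFin

set_option autoImplicit false

namespace Pool.Agent.Results.MP_4d5ce1_nt.ExceptionsSmallRadical

open Finset

/-- Normalised coprime integer coordinates: each point `[x₀ : x₁]` of the projective line over `ℚ`
has exactly one such pair. -/
def Nrm (x : ℤ × ℤ) : Prop := IsCoprime x.1 x.2 ∧ (0 < x.2 ∨ x.2 = 0 ∧ 0 < x.1)

/-- The absolute logarithmic height of the point with the coprime integer coordinates `x`. -/
noncomputable def h (x : ℤ × ℤ) : ℝ := Real.log (max |(x.1 : ℝ)| |(x.2 : ℝ)|)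

/-- The sum over the primes `p ∉ S` and over `ℓ` of the truncated local heights
`λ⁽¹⁾_p(α_ℓ, x)`: for coprime coordinates of `x` and `α_ℓ` this is `log p` if
`p ∣ x₀ a₁ - x₁ a₀` and `0` otherwise. -/
noncomputable def N1 {q : ℕ} (α : Fin q → ℤ × ℤ) (S : Finset ℕ) (x : ℤ × ℤ) : ℝ :=
  ∑ i, ∑ p ∈ (x.1 * (α i).2 - x.2 * (α i).1).natAbs.primeFactors \ S, Real.log p

/-- The points `x`, different from all the `α_ℓ`, with
`∑_{p ∉ S} ∑_ℓ λ⁽¹⁾_p(α_ℓ, x) ≤ log X` and `M log X ≤ h(x) ≤ A log X`. -/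
def Pts {q : ℕ} (α : Fin q → ℤ × ℤ) (S : Finset ℕ) (M A X : ℝ) : Set (ℤ × ℤ) :=
  {x | Nrm x ∧ (∀ i, x.1 * (α i).2 - x.2 * (α i).1 ≠ 0) ∧ N1 α S x ≤ Real.log X ∧
    M * Real.log X ≤ h x ∧ h x ≤ A * Real.log X}

/-- The points `x`, different from all the `α_ℓ`, of height `h(x) ≤ log B`, with
`∑_{p ∉ S} ∑_ℓ λ⁽¹⁾_p(α_ℓ, x) ≤ μ h(x) + c`. -/
def Exc {q : ℕ} (α : Fin q → ℤ × ℤ) (S : Finset ℕ) (μ c B : ℝ) : Set (ℤ × ℤ) :=
  {x | Nrm x ∧ (∀ i, x.1 * (α i).2 - x.2 * (α i).1 ≠ 0) ∧ h x ≤ Real.log B ∧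
    N1 α S x ≤ μ * h x + c}

/-- the linear forms -/
def FL {q : ℕ} (α : Fin q → ℤ × ℤ)
    (hα : ∀ i j, i ≠ j → (α i).1 * (α j).2 ≠ (α j).1 * (α i).2) : Pool.Agent.TH867.QF.Fm q where
  u i := (α i).2
  w i := - (α i).1
  res i j hij h0 := hα i j hij (by linarith)

open Pool.Agent.TH867.QF

theorem ev_eq {q : ℕ} (α : Fin q → ℤ × ℤ)
    (hα : ∀ i j, i ≠ j → (α i).1 * (α j).2 ≠ (α j).1 * (α i).2) (x : ℤ × ℤ) (i : Fin q) :
    ev (FL α hα) x i = x.1 * (α i).2 - x.2 * (α i).1 := by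
  unfold ev FL
  ring

theorem h_eq (x : ℤ × ℤ) : h x = Real.log (ht x) := by
  unfold h ht
  rw [Nat.cast_max, Nat.cast_natAbs, Nat.cast_natAbs, Int.cast_abs, Int.cast_abs]

theorem fin_ht (N : ℕ) : {x : ℤ × ℤ | ht x ≤ N}.Finite := by
  apply Set.Finite.subset (Finset.finite_toSet (Finset.Icc (-(N : ℤ)) N ×ˢ Finset.Icc (-(N : ℤ)) N))
  intro x hx
  have hx' : ht x ≤ N := hx
  have h1 : x.1.natAbs ≤ N := (le_max_left _ _).trans hx'
  have h2 : x.2.natAbs ≤ N := (le_max_right _ _).trans hx'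
  rw [Finset.mem_coe, Finset.mem_product, Finset.mem_Icc, Finset.mem_Icc]
  omega

/-- the properties of the points used -/
theorem pt_of {q : ℕ} {α : Fin q → ℤ × ℤ}
    {hα : ∀ i j, i ≠ j → (α i).1 * (α j).2 ≠ (α j).1 * (α i).2} {x : ℤ × ℤ} (hx : Nrm x)
    (hne : ∀ i, x.1 * (α i).2 - x.2 * (α i).1 ≠ 0) : Pt (FL α hα) x where
  cop := hx.1
  ne i := by rw [ev_eq]; exact hne i

theorem prod_le {q : ℕ} {α : Fin q → ℤ × ℤ}
    {hα : ∀ i j, i ≠ j → (α i).1 * (α j).2 ≠ (α j).1 * (α i).2} {S : Finset ℕ} {x : ℤ × ℤ}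
    {W : ℝ} (hW : 0 < W) (hN : N1 α S x ≤ Real.log W) :
    ((∏ i, ∏ p ∈ (va (FL α hα) x i).primeFactors \ S, p : ℕ) : ℝ) ≤ W := by
  have hpos : ∀ i, (0 : ℝ) < ∏ p ∈ (va (FL α hα) x i).primeFactors \ S, (p : ℝ) := by
    intro i
    apply Finset.prod_pos
    intro p hp
    exact_mod_cast (Nat.prime_of_mem_primeFactors (Finset.mem_sdiff.mp hp).1).pos
  push_cast
  rw [← Real.log_le_log_iff (Finset.prod_pos fun i _ => hpos i) hW]
  refine le_trans (le_of_eq ?_) hN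
  rw [Real.log_prod (fun i _ => (hpos i).ne')]
  unfold N1
  apply Finset.sum_congr rfl
  intro i _
  rw [Real.log_prod (fun p hp => by
    have := (Nat.prime_of_mem_primeFactors (Finset.mem_sdiff.mp hp).1).pos
    positivity)]
  unfold va
  rw [ev_eq]

theorem part1 (q : ℕ) (hq : 3 ≤ q) (α : Fin q → ℤ × ℤ)
    (hα : ∀ i j, i ≠ j → (α i).1 * (α j).2 ≠ (α j).1 * (α i).2) (S : Finset ℕ) (η : ℝ)
    (hη : 0 < η) : ∃ M : ℕ, ∀ A : ℕ, ∃ C : ℝ, 0 < C ∧ ∀ X : ℝ, 1 ≤ X →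
      (Pts α S M A X).Finite ∧ ((Pts α S M A X).ncard : ℝ) ≤ C * X ^ (1 / (q : ℝ) + η) := by
  classical
  obtain ⟨M, hmain⟩ := Pool.Agent.Helper205_Exc.forms_main hq (FL α hα) S η hη
  refine ⟨M, ?_⟩
  intro A
  obtain ⟨C, hC, hmain⟩ := hmain A
  obtain ⟨C0, hC0⟩ : ∃ C0 : ℕ, C0 = {x : ℤ × ℤ | ht x ≤ 2 ^ A}.ncard := ⟨_, rfl⟩
  refine ⟨C + C0, by positivity, ?_⟩
  intro X hX
  have hX0 : 0 < X := by linarith
  have hht : ∀ x ∈ Pts α S M A X, 0 < ht x := fun x hx => ht_pos (pt_of (hα := hα) hx.1 hx.2.1)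
  have hup : ∀ x ∈ Pts α S M A X, (ht x : ℝ) ≤ X ^ A := by
    intro x hx
    have h1 := hx.2.2.2.2
    rw [h_eq, ← Real.log_pow] at h1
    exact (Real.log_le_log_iff (by exact_mod_cast hht x hx) (by positivity)).mp h1
  have hlow : ∀ x ∈ Pts α S M A X, X ^ M ≤ (ht x : ℝ) := by
    intro x hx
    have h1 := hx.2.2.2.1
    rw [h_eq, ← Real.log_pow] at h1
    exact (Real.log_le_log_iff (by positivity) (by exact_mod_cast hht x hx)).mp h1
  have hfin : (Pts α S M A X).Finite := by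
    apply (fin_ht ⌊X ^ A⌋₊).subset
    intro x hx
    exact Nat.le_floor (hup x hx)
  refine ⟨hfin, ?_⟩
  have hXe : 1 ≤ X ^ (1 / (q : ℝ) + η) := Real.one_le_rpow hX (by positivity)
  rcases le_or_gt 2 X with hX2 | hX2
  · have h1 := hmain X hX2 hfin.toFinset (by
      intro x hx
      rw [Set.Finite.mem_toFinset] at hx
      exact ⟨pt_of hx.1 hx.2.1, hlow x hx, hup x hx, prod_le hX0 hx.2.2.1⟩)
    rw [Set.ncard_eq_toFinset_card _ hfin]
    refine h1.trans (mul_le_mul_of_nonneg_right ?_ (by positivity))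
    linarith [(Nat.cast_nonneg C0 : (0 : ℝ) ≤ C0)]
  · have h1 : (Pts α S M A X).ncard ≤ C0 := by
      rw [hC0]
      apply Set.ncard_le_ncard _ (fin_ht _)
      intro x hx
      have h2 : (ht x : ℝ) ≤ ((2 ^ A : ℕ) : ℝ) := by
        push_cast
        exact (hup x hx).trans (pow_le_pow_left₀ hX0.le hX2.le A)
      exact_mod_cast h2
    have h2 : ((Pts α S M A X).ncard : ℝ) ≤ C0 := by exact_mod_cast h1
    nlinarith [(Nat.cast_nonneg C0 : (0 : ℝ) ≤ C0)]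

theorem part2 (q : ℕ) (hq : 3 ≤ q) (α : Fin q → ℤ × ℤ)
    (hα : ∀ i j, i ≠ j → (α i).1 * (α j).2 ≠ (α j).1 * (α i).2) (S : Finset ℕ) (η : ℝ)
    (hη : 0 < η) : ∃ μ₀ : ℝ, 0 < μ₀ ∧ ∀ μ : ℝ, 0 < μ → μ ≤ μ₀ → ∀ c : ℝ, ∃ C : ℝ, 0 < C ∧
      ∀ B : ℝ, 1 ≤ B → (Exc α S μ c B).Finite ∧
        ((Exc α S μ c B).ncard : ℝ) ≤ C * B ^ ((1 / (q : ℝ) + η) * μ) := by
  classical
  obtain ⟨M, hM⟩ := part1 q hq α hα S η hη
  refine ⟨1 / (4 * (M + 1)), by positivity, ?_⟩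
  intro μ hμ0 hμ c
  obtain ⟨A, hA⟩ : ∃ A : ℕ, A = ⌈1 / μ⌉₊ := ⟨_, rfl⟩
  have hAμ : 1 ≤ (A : ℝ) * μ := by
    have h1 : 1 / μ ≤ A := by rw [hA]; exact Nat.le_ceil _
    rwa [div_le_iff₀ hμ0] at h1
  obtain ⟨C, hC, hpts⟩ := hM A
  obtain ⟨c', hc'⟩ : ∃ c' : ℝ, c' = max c 0 := ⟨_, rfl⟩
  have hc0 : 0 ≤ c' := by rw [hc']; exact le_max_right _ _
  have hcc : c ≤ c' := by rw [hc']; exact le_max_left _ _
  have hl2 : 0 < Real.log 2 := Real.log_pos (by norm_num)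
  obtain ⟨j0, hj0⟩ : ∃ j0 : ℕ, j0 = ⌈2 * M * c' / Real.log 2⌉₊ + 1 := ⟨_, rfl⟩
  obtain ⟨s, hs⟩ : ∃ s : ℝ, s = 1 / (q : ℝ) + η := ⟨_, rfl⟩
  have hs0 : 0 < s := by rw [hs]; positivity
  obtain ⟨r, hr⟩ : ∃ r : ℝ, r = (2 : ℝ) ^ (s * μ) := ⟨_, rfl⟩
  have hr1 : 1 < r := by rw [hr]; exact Real.one_lt_rpow (by norm_num) (by positivity)
  have hr0 : 0 < r := by linarith
  obtain ⟨C0, hC0⟩ : ∃ C0 : ℕ, C0 = {x : ℤ × ℤ | ht x ≤ 2 ^ (j0 + 1)}.ncard := ⟨_, rfl⟩
  obtain ⟨C1, hC1⟩ : ∃ C1 : ℝ, C1 = C0 + C * (Real.exp (c' * s) * r) := ⟨_, rfl⟩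
  have hC10 : 0 < C1 := by rw [hC1]; positivity
  refine ⟨C1 * (r / (r - 1)), by
    have : 0 < r - 1 := by linarith
    positivity, ?_⟩
  intro B hB
  have hB0 : 0 < B := by linarith
  have hht : ∀ x ∈ Exc α S μ c B, 0 < ht x := fun x hx => ht_pos (pt_of (hα := hα) hx.1 hx.2.1)
  have hup : ∀ x ∈ Exc α S μ c B, (ht x : ℝ) ≤ B := by
    intro x hx
    have h1 := hx.2.2.1
    rw [h_eq] at h1
    exact (Real.log_le_log_iff (by exact_mod_cast hht x hx) hB0).mp h1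
  have hfin : (Exc α S μ c B).Finite := by
    apply (fin_ht ⌊B⌋₊).subset
    intro x hx
    exact Nat.le_floor (hup x hx)
  refine ⟨hfin, ?_⟩
  obtain ⟨J, hJ⟩ : ∃ J : ℕ, J = Nat.log 2 ⌊B⌋₊ := ⟨_, rfl⟩
  have hfl : 1 ≤ ⌊B⌋₊ := Nat.le_floor (by simpa using hB)
  have hJB : (2 : ℝ) ^ J ≤ B := by
    have h1 : 2 ^ J ≤ ⌊B⌋₊ := by rw [hJ]; exact Nat.pow_log_le_self 2 (by omega)
    calc (2 : ℝ) ^ J = ((2 ^ J : ℕ) : ℝ) := by push_cast; rfl
      _ ≤ (⌊B⌋₊ : ℝ) := by exact_mod_cast h1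
      _ ≤ B := Nat.floor_le hB0.le
  -- the fibres
  have hfib : ∀ j : ℕ, ((hfin.toFinset.filter fun x => Nat.log 2 (ht x) = j).card : ℝ) ≤
      C1 * r ^ j := by
    intro j
    have hmem : ∀ x ∈ hfin.toFinset.filter fun x => Nat.log 2 (ht x) = j,
        x ∈ Exc α S μ c B ∧ (2 : ℝ) ^ j ≤ ht x ∧ (ht x : ℝ) ≤ 2 ^ (j + 1) := by
      intro x hx
      obtain ⟨h1, h2⟩ := Finset.mem_filter.mp hx
      rw [Set.Finite.mem_toFinset] at h1
      refine ⟨h1, ?_, ?_⟩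
      · have h3 : 2 ^ j ≤ ht x := by
          rw [← h2]
          exact Nat.pow_log_le_self 2 (hht x h1).ne'
        exact_mod_cast h3
      · have h3 : ht x ≤ 2 ^ (j + 1) := by
          rw [← h2]
          exact (Nat.lt_pow_succ_log_self (by norm_num) _).le
        exact_mod_cast h3
    have hrj : 1 ≤ r ^ j := one_le_pow₀ hr1.le
    rcases lt_or_ge j j0 with hj | hj
    · have h1 : (hfin.toFinset.filter fun x => Nat.log 2 (ht x) = j).card ≤ C0 := by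
        rw [hC0, ← Set.ncard_coe_finset]
        apply Set.ncard_le_ncard _ (fin_ht _)
        intro x hx
        have h2 := (hmem x hx).2.2
        have h3 : ht x ≤ 2 ^ (j + 1) := by exact_mod_cast h2
        exact h3.trans (Nat.pow_le_pow_right (by norm_num) (by omega))
      have h2 : ((hfin.toFinset.filter fun x => Nat.log 2 (ht x) = j).card : ℝ) ≤ C0 := by
        exact_mod_cast h1
      have h3 : (C0 : ℝ) ≤ C1 := by
        rw [hC1]
        have : 0 < C * (Real.exp (c' * s) * r) := by positivity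
        linarith
      nlinarith
    · obtain ⟨W, hW⟩ : ∃ W : ℝ, W = Real.exp (c' + μ * ((j + 1) * Real.log 2)) := ⟨_, rfl⟩
      have hlW : Real.log W = c' + μ * ((j + 1) * Real.log 2) := by rw [hW, Real.log_exp]
      have hW1 : 1 ≤ W := by
        rw [hW]
        exact Real.one_le_exp (by positivity)
      obtain ⟨hf1, hf2⟩ := hpts W hW1
      have hjr : (2 * M * c' / Real.log 2) + 1 ≤ j := by
        have e1 : (2 * M * c' / Real.log 2) ≤ (⌈2 * M * c' / Real.log 2⌉₊ : ℝ) := Nat.le_ceil _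
        have e2 : ((⌈2 * M * c' / Real.log 2⌉₊ + 1 : ℕ) : ℝ) ≤ j := by
          rw [← hj0]
          exact_mod_cast hj
        push_cast at e2
        linarith
      have hj1 : (1 : ℝ) ≤ j := by
        have : 0 ≤ 2 * M * c' / Real.log 2 := by positivity
        linarith
      have hMc : 2 * (M * c') ≤ j * Real.log 2 := by
        have e1 : 2 * M * c' / Real.log 2 ≤ j := by linarith
        rw [div_le_iff₀ hl2] at e1
        linarith
      have hsub : ((hfin.toFinset.filter fun x => Nat.log 2 (ht x) = j : Finset (ℤ × ℤ)) :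
          Set (ℤ × ℤ)) ⊆ Pts α S M A W := by
        intro x hx
        obtain ⟨h1, h2, h3⟩ := hmem x hx
        have hx0 : (0 : ℝ) < ht x := by exact_mod_cast hht x h1
        have h4 : j * Real.log 2 ≤ h x := by
          rw [h_eq, ← Real.log_pow]
          exact Real.log_le_log (by positivity) h2
        have h5 : h x ≤ (j + 1) * Real.log 2 := by
          rw [h_eq]
          have := Real.log_le_log hx0 h3
          rw [Real.log_pow] at this
          push_cast at this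
          exact this
        refine ⟨h1.1, h1.2.1, ?_, ?_, ?_⟩
        · rw [hlW]
          have e1 := h1.2.2.2
          have e2 : μ * h x ≤ μ * ((j + 1) * Real.log 2) := mul_le_mul_of_nonneg_left h5 hμ0.le
          linarith
        · rw [hlW]
          refine le_trans ?_ h4
          have e1 : (M : ℝ) * μ ≤ 1 / 4 := by
            calc (M : ℝ) * μ ≤ (M + 1) * (1 / (4 * (M + 1))) := by
                  apply mul_le_mul _ hμ hμ0.le (by positivity)
                  linarith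
              _ = 1 / 4 := by field_simp
          have e2 : (M : ℝ) * μ * ((j + 1) * Real.log 2) ≤ 1 / 4 * ((j + 1) * Real.log 2) :=
            mul_le_mul_of_nonneg_right e1 (by positivity)
          have e3 : 1 / 4 * ((j + 1) * Real.log 2) ≤ 1 / 2 * (j * Real.log 2) := by
            nlinarith
          calc (M : ℝ) * (c' + μ * ((j + 1) * Real.log 2))
              = M * c' + M * μ * ((j + 1) * Real.log 2) := by ring
            _ ≤ 1 / 2 * (j * Real.log 2) + 1 / 2 * (j * Real.log 2) := by linarith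
            _ = j * Real.log 2 := by ring
        · rw [hlW]
          refine h5.trans ?_
          have e1 : (1 : ℝ) * ((j + 1) * Real.log 2) ≤ (A * μ) * ((j + 1) * Real.log 2) :=
            mul_le_mul_of_nonneg_right hAμ (by positivity)
          have e2 : 0 ≤ (A : ℝ) * c' := by positivity
          calc (j + 1) * Real.log 2 = 1 * ((j + 1) * Real.log 2) := by ring
            _ ≤ (A * μ) * ((j + 1) * Real.log 2) := e1
            _ ≤ A * (c' + μ * ((j + 1) * Real.log 2)) := by linarith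
      have h1 : ((hfin.toFinset.filter fun x => Nat.log 2 (ht x) = j).card : ℝ) ≤
          ((Pts α S M A W).ncard : ℝ) := by
        rw [← Set.ncard_coe_finset]
        exact_mod_cast Set.ncard_le_ncard hsub hf1
      refine (h1.trans hf2).trans ?_
      rw [← hs]
      have hWs : W ^ s = Real.exp (c' * s) * r * r ^ j := by
        rw [hW, ← Real.exp_mul, hr, ← Real.rpow_natCast, ← Real.rpow_mul (by norm_num), mul_assoc,
          ← Real.rpow_add (by norm_num), Real.rpow_def_of_pos (by norm_num : (0 : ℝ) < 2),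
          ← Real.exp_add]
        congr 1
        ring
      rw [hWs, hC1]
      have : 0 ≤ (C0 : ℝ) * r ^ j := by positivity
      calc C * (Real.exp (c' * s) * r * r ^ j)
          ≤ C0 * r ^ j + C * (Real.exp (c' * s) * r * r ^ j) := by linarith
        _ = (C0 + C * (Real.exp (c' * s) * r)) * r ^ j := by ring
  have hcard : ((Exc α S μ c B).ncard : ℝ) ≤ ∑ j ∈ Finset.range (J + 1), C1 * r ^ j := by
    rw [Set.ncard_eq_toFinset_card _ hfin,
      Finset.card_eq_sum_card_fiberwise (f := fun x => Nat.log 2 (ht x))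
        (t := Finset.range (J + 1)) (fun x hx => by
          rw [Finset.mem_coe, Set.Finite.mem_toFinset] at hx
          rw [Finset.mem_coe, Finset.mem_range, hJ]
          have h1 : Nat.log 2 (ht x) ≤ Nat.log 2 ⌊B⌋₊ := Nat.log_mono_right (Nat.le_floor (hup x hx))
          exact Nat.lt_succ_of_le h1)]
    push_cast
    exact Finset.sum_le_sum fun j _ => hfib j
  refine hcard.trans ?_
  rw [← Finset.mul_sum, geom_sum_eq hr1.ne', ← hs]
  have hrJ : r ^ J ≤ B ^ (s * μ) := by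
    calc r ^ J = ((2 : ℝ) ^ J) ^ (s * μ) := by
          rw [hr, ← Real.rpow_natCast, ← Real.rpow_natCast, ← Real.rpow_mul (by norm_num),
            ← Real.rpow_mul (by norm_num)]
          congr 1
          ring
      _ ≤ B ^ (s * μ) := Real.rpow_le_rpow (by positivity) hJB (by positivity)
  have hr10 : 0 < r - 1 := by linarith
  rw [mul_assoc]
  apply mul_le_mul_of_nonneg_left _ hC10.le
  rw [div_mul_eq_mul_div]
  apply div_le_div_of_nonneg_right _ hr10.le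
  calc r ^ (J + 1) - 1 ≤ r * r ^ J := by rw [pow_succ]; linarith
    _ ≤ r * B ^ (s * μ) := mul_le_mul_of_nonneg_left hrJ hr0.le

/-- Let `α_1, …, α_q` be `q ≥ 3` distinct points of the projective line over `ℚ`, `S` a finite set
of primes and `η > 0`. There is an `M` such that for every `A` the number of points
`x ≠ α_ℓ` with `∑_{p ∉ S} ∑_ℓ λ⁽¹⁾_p(α_ℓ, x) ≤ log X` and `M log X ≤ h(x) ≤ A log X` is
`O(X ^ (1 / q + η))`. There is a `μ₀ > 0` such that for `0 < μ ≤ μ₀` and every `c` the number of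
points `x ≠ α_ℓ` with `h(x) ≤ log B` and `∑_{p ∉ S} ∑_ℓ λ⁽¹⁾_p(α_ℓ, x) ≤ μ h(x) + c` is
`O(B ^ ((1 / q + η) μ))`. -/
theorem result (q : ℕ) (hq : 3 ≤ q) (α : Fin q → ℤ × ℤ)
    (hα : ∀ i j, i ≠ j → (α i).1 * (α j).2 ≠ (α j).1 * (α i).2) (S : Finset ℕ) (η : ℝ)
    (hη : 0 < η) :
    (∃ M : ℕ, ∀ A : ℕ, ∃ C : ℝ, 0 < C ∧ ∀ X : ℝ, 1 ≤ X →
      (Pts α S M A X).Finite ∧ ((Pts α S M A X).ncard : ℝ) ≤ C * X ^ (1 / (q : ℝ) + η)) ∧
    (∃ μ₀ : ℝ, 0 < μ₀ ∧ ∀ μ : ℝ, 0 < μ → μ ≤ μ₀ → ∀ c : ℝ, ∃ C : ℝ, 0 < C ∧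
      ∀ B : ℝ, 1 ≤ B → (Exc α S μ c B).Finite ∧
        ((Exc α S μ c B).ncard : ℝ) ≤ C * B ^ ((1 / (q : ℝ) + η) * μ)) :=
  ⟨part1 q hq α hα S η hη, part2 q hq α hα S η hη⟩

end Pool.Agent.Results.MP_4d5ce1_nt.ExceptionsSmallRadical
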