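import Pool.Agent.helper440_quartic.Final

/-!
# The inequality with `ε = 0` fails for sets containing a conjugate quadruple, at rational points

Let `F` be any binary quartic form over `ℤ` with discriminant not zero (irreducible forms and
products of two irreducible quadratic forms are allowed), `K` any binary form of degree `r` which is
not zero, and `0 ≤ δ < 1 / 2`. Then there are infinitely many coprime `(x, y)` with
`rad (F (x, y) K (x, y)) ≤ C M ^ (r + 2) / (log M) ^ δ`, where `M = max (|x|, |y|)`.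
-/

namespace Pool.Agent.Results.MP_4d5ce1_nt.ConjugateQuadrupleLowerBound

/-- The binary quartic form `a x⁴ + b x³ y + c x² y² + d x y³ + e y⁴`. -/
def quarticForm (a b c d e x y : ℤ) : ℤ :=
  a * x ^ 4 + b * x ^ 3 * y + c * x ^ 2 * y ^ 2 + d * x * y ^ 3 + e * y ^ 4

/-- The invariant `I` of the quartic form. -/
def invariantI (a b c d e : ℤ) : ℤ := 12 * a * e - 3 * b * d + c ^ 2

/-- The invariant `J` of the quartic form. -/
def invariantJ (a b c d e : ℤ) : ℤ :=
  72 * a * c * e + 9 * b * c * d - 27 * a * d ^ 2 - 27 * e * b ^ 2 - 2 * c ^ 3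

/-- `27` times the discriminant of the quartic form. -/
def discriminant27 (a b c d e : ℤ) : ℤ := 4 * invariantI a b c d e ^ 3 - invariantJ a b c d e ^ 2

/-- The binary form of degree `r` with the coefficients `k 0, ..., k r`. -/
def binaryForm (r : ℕ) (k : ℕ → ℤ) (x y : ℤ) : ℤ :=
  ∑ j ∈ Finset.range (r + 1), k j * x ^ j * y ^ (r - j)

/-- The radical: the product of the primes dividing `m`. -/
def radical (m : ℤ) : ℕ := ∏ p ∈ m.natAbs.primeFactors, p

theorem result (a b c d e : ℤ) (hdisc : discriminant27 a b c d e ≠ 0) (δ : ℝ) (hδ : 0 ≤ δ)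
    (hδ' : δ < 1 / 2) (r : ℕ) (k : ℕ → ℤ) (hk : ∃ j ≤ r, k j ≠ 0) :
    ∃ C : ℝ, 0 < C ∧ ∀ B : ℝ, ∃ x y : ℤ, IsCoprime x y ∧
      quarticForm a b c d e x y ≠ 0 ∧ binaryForm r k x y ≠ 0 ∧
      B < ((max |x| |y| : ℤ) : ℝ) ∧
      (radical (quarticForm a b c d e x y * binaryForm r k x y) : ℝ) *
          (Real.log ((max |x| |y| : ℤ) : ℝ)) ^ δ ≤
        C * ((max |x| |y| : ℤ) : ℝ) ^ (r + 2) := by
  obtain ⟨C, hC, hmain⟩ := helper440_quartic.general a b c d e hdisc hδ hδ' r k hk
  refine ⟨C, hC, fun B => ?_⟩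
  obtain ⟨x, y, hxy, hne', hB, hle⟩ := hmain B
  exact ⟨x, y, hxy, left_ne_zero_of_mul hne', right_ne_zero_of_mul hne', hB, hle⟩

end Pool.Agent.Results.MP_4d5ce1_nt.ConjugateQuadrupleLowerBound
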