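import Pool.Agent.helper440_cubic.Main
import Pool.Agent.helper440_cubic2.Final

/-!
# The inequality with `ε = 0` fails for sets containing a conjugate triple, at rational points

Let `F` be any binary cubic form over `ℤ` with discriminant not zero (irreducible forms are
allowed), `K` any binary form of degree `r` which is not zero, and `δ < 1 / 2`, or `δ = 1 / 2` if
`F` has a zero in `ℙ¹(ℚ₂)`. Then there are infinitely many coprime `(x, y)` with
`rad (F (x, y) K (x, y)) ≤ C M ^ (r + 1) / (log M) ^ δ`, where `M = max (|x|, |y|)`.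
-/

namespace Pool.Agent.Results.MP_4d5ce1_nt.ConjugateTripleLowerBound

/-- The binary cubic form `a x³ + b x² y + c x y² + d y³`. -/
def cubicForm (a b c d x y : ℤ) : ℤ := a * x ^ 3 + b * x ^ 2 * y + c * x * y ^ 2 + d * y ^ 3

/-- The discriminant of the binary cubic form `a x³ + b x² y + c x y² + d y³`. -/
def discriminant (a b c d : ℤ) : ℤ :=
  b ^ 2 * c ^ 2 - 4 * a * c ^ 3 - 4 * b ^ 3 * d - 27 * a ^ 2 * d ^ 2 + 18 * a * b * c * d

/-- The binary form of degree `r` with the coefficients `k 0, ..., k r`. -/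
def binaryForm (r : ℕ) (k : ℕ → ℤ) (x y : ℤ) : ℤ :=
  ∑ j ∈ Finset.range (r + 1), k j * x ^ j * y ^ (r - j)

/-- The radical: the product of the primes dividing `m`. -/
def radical (m : ℤ) : ℕ := ∏ p ∈ m.natAbs.primeFactors, p

theorem result (a b c d : ℤ) (hdisc : discriminant a b c d ≠ 0) (δ : ℝ) (hδ : 0 ≤ δ)
    (h2 : δ < 1 / 2 ∨ (δ = 1 / 2 ∧ ∃ α β : ℚ_[2], (α ≠ 0 ∨ β ≠ 0) ∧
      (a : ℚ_[2]) * α ^ 3 + b * α ^ 2 * β + c * α * β ^ 2 + d * β ^ 3 = 0))
    (r : ℕ) (k : ℕ → ℤ) (hk : ∃ j ≤ r, k j ≠ 0) :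
    ∃ C : ℝ, 0 < C ∧ ∀ B : ℝ, ∃ x y : ℤ, IsCoprime x y ∧
      cubicForm a b c d x y ≠ 0 ∧ binaryForm r k x y ≠ 0 ∧
      B < ((max |x| |y| : ℤ) : ℝ) ∧
      (radical (cubicForm a b c d x y * binaryForm r k x y) : ℝ) *
          (Real.log ((max |x| |y| : ℤ) : ℝ)) ^ δ ≤
        C * ((max |x| |y| : ℤ) : ℝ) ^ (r + 1) := by
  rcases h2 with h2 | ⟨rfl, α, β, hne, h⟩
  · obtain ⟨C, hC, hmain⟩ := helper440_cubic2.general a b c d hdisc hδ h2 r k hk
    refine ⟨C, hC, fun B => ?_⟩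
    obtain ⟨x, y, hxy, hne', hB, hle⟩ := hmain B
    exact ⟨x, y, hxy, left_ne_zero_of_mul hne', right_ne_zero_of_mul hne', hB, hle⟩
  · obtain ⟨C, hC, hmain⟩ := helper440_cubic.main a b c d hdisc
      (fun e => helper440_cubic.of_padic hdisc hne h e) r k hk
    refine ⟨C, hC, fun B => ?_⟩
    obtain ⟨x, y, hxy, hne', hB, hle⟩ := hmain B
    rw [Real.sqrt_eq_rpow] at hle
    exact ⟨x, y, hxy, left_ne_zero_of_mul hne', right_ne_zero_of_mul hne', hB, hle⟩

end Pool.Agent.Results.MP_4d5ce1_nt.ConjugateTripleLowerBound
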