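import Pool.Agent.H775.SZ.CjUp
import Pool.Agent.H775.SZ.CjLow

/-!
# The exceptional set for rational points and conjugate quadratic points `α_ℓ`
-/

set_option autoImplicit false

namespace Pool.Agent.Results.MP_4d5ce1_nt.QuadraticPointsExactExponent

open Polynomial

/-- the value at `(x, y)` of the binary form `∑ f_j X^j Y^(n-j)` of degree `n` -/
def form (f : ℤ[X]) (n : ℕ) (x y : ℤ) : ℤ :=
  ∑ j ∈ Finset.range (n + 1), f.coeff j * x ^ j * y ^ (n - j)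

/-- this form has degree `n` and `n` distinct zeros in the projective line over `ℚ̄` (the point
`[1 : 0]` is a zero if `f` has degree `n - 1`) -/
def DistinctZeros (f : ℤ[X]) (n : ℕ) : Prop :=
  Squarefree (f.map (Int.castRingHom ℚ)) ∧ f.natDegree ≤ n ∧ n ≤ f.natDegree + 1

/-- the product of the primes that divide `m` -/
def radical (m : ℤ) : ℕ := ∏ p ∈ m.natAbs.primeFactors, p

/-- the coprime pairs `(x, y)` of height `H = max (|x|, |y|) ≤ B`, where the form `F` does not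
vanish, with `rad F(x, y) < c * H ^ (n - κ)` -/
def Exceptions (f : ℤ[X]) (n : ℕ) (κ c B : ℝ) : Set (ℤ × ℤ) :=
  {p | IsCoprime p.1 p.2 ∧ max |(p.1 : ℝ)| |(p.2 : ℝ)| ≤ B ∧ form f n p.1 p.2 ≠ 0 ∧
    (radical (form f n p.1 p.2) : ℝ) < c * (max |(p.1 : ℝ)| |(p.2 : ℝ)|) ^ ((n : ℝ) - κ)}

theorem fin_exc (f : ℤ[X]) (n : ℕ) (κ c B : ℝ) : (Exceptions f n κ c B).Finite := by
  refine ((Set.finite_Icc (-⌊B⌋) ⌊B⌋).prod (Set.finite_Icc (-⌊B⌋) ⌊B⌋)).subset ?_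
  rintro p ⟨-, h, -⟩
  have h1 := abs_le.mp ((le_max_left _ _).trans h)
  have h2 := abs_le.mp ((le_max_right _ _).trans h)
  refine ⟨⟨?_, Int.le_floor.mpr h1.2⟩, ⟨?_, Int.le_floor.mpr h2.2⟩⟩
  · have : -p.1 ≤ ⌊B⌋ := Int.le_floor.mpr (by push_cast; linarith [h1.1])
    linarith
  · have : -p.2 ≤ ⌊B⌋ := Int.le_floor.mpr (by push_cast; linarith [h2.1])
    linarith

/-- (1) Let `F` be a binary form of degree `n ≥ 2` with integral coefficients and `n` distinct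
zeros, `0 ≤ κ < 1` and `c > 0`. Then, for large `B`, at least `c₁ B ^ (2 - κ)` coprime pairs
`(x, y)` of height `H ≤ B` satisfy `0 < rad F(x, y) < c H ^ (n - κ)`.

(2) If `F` is moreover a product of forms of degrees at most two (that is, its zeros are rational or
quadratic) and `0 ≤ κ ≤ 1 / 2`, then for every `ε > 0` there are at most `C B ^ (2 - κ + ε)` such
pairs, for all `B ≥ 1`. -/
theorem result :
    (∀ (f : ℤ[X]) (n : ℕ), 2 ≤ n → DistinctZeros f n → ∀ κ c : ℝ, 0 ≤ κ → κ < 1 → 0 < c →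
      ∃ c₁ : ℝ, 0 < c₁ ∧ ∃ B₀ : ℝ, ∀ B : ℝ, B₀ ≤ B → (Exceptions f n κ c B).Finite ∧
        c₁ * B ^ (2 - κ) ≤ ((Exceptions f n κ c B).ncard : ℝ)) ∧
    (∀ (r : ℕ) (g : Fin r → ℤ[X]) (d : Fin r → ℕ), (∀ i, (g i).natDegree ≤ d i ∧ d i ≤ 2) →
      2 ≤ ∑ i, d i → DistinctZeros (∏ i, g i) (∑ i, d i) →
      ∀ κ c ε : ℝ, 0 ≤ κ → κ ≤ 1 / 2 → 0 < c → 0 < ε →
        ∃ C : ℝ, 0 < C ∧ ∀ B : ℝ, 1 ≤ B → (Exceptions (∏ i, g i) (∑ i, d i) κ c B).Finite ∧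
          ((Exceptions (∏ i, g i) (∑ i, d i) κ c B).ncard : ℝ) ≤ C * B ^ (2 - κ + ε)) := by
  refine ⟨?_, ?_⟩
  · intro f n hn hf κ c h0 h1 hc
    obtain ⟨c1, hc1, B0, hB0, h⟩ := Pool.Agent.H775.SZ.cj_low f n hf hn κ (c / 2) h0 h1 (by positivity)
    refine ⟨c1, hc1, B0, fun B hB => ⟨fin_exc f n κ c B, ?_⟩⟩
    obtain ⟨S, hS, hcard⟩ := h B hB
    have h4 : (S : Set (ℤ × ℤ)) ⊆ Exceptions f n κ c B := by
      intro p hp
      obtain ⟨g1, g2, g3, g4, g5⟩ := hS p hp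
      have hm := Pool.Agent.H775.SZ.max_ge_one g1
      refine ⟨g1, max_le g2 g3, g4, lt_of_le_of_lt g5 ?_⟩
      have : 0 < (max |(p.1 : ℝ)| |(p.2 : ℝ)|) ^ ((n : ℝ) - κ) :=
        Real.rpow_pos_of_pos (by linarith) _
      nlinarith
    have h5 := Set.ncard_le_ncard h4 (fin_exc f n κ c B)
    rw [Set.ncard_coe_finset] at h5
    exact hcard.trans (by exact_mod_cast h5)
  · intro r g d hd hn hs κ c ε h0 h1 hc hε
    have hL := Pool.Agent.H775.SZ.lpr_prod r g d hd hs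
    obtain ⟨C, hC, h⟩ := Pool.Agent.H775.SZ.count_up (∏ i, g i) (∑ i, d i) hs hn hL (2 - κ)
      (by linarith) (max c 1) (le_max_right _ _) ε hε
    refine ⟨C, hC, fun B hB => ⟨fin_exc _ _ κ c B, ?_⟩⟩
    rw [Set.ncard_eq_toFinset_card _ (fin_exc _ _ κ c B)]
    refine h B hB _ fun p hp => ?_
    obtain ⟨g1, g2, g3, g4⟩ := (fin_exc _ _ κ c B).mem_toFinset.mp hp
    have hm := Pool.Agent.H775.SZ.max_ge_one g1
    refine ⟨g1, (le_max_left _ _).trans g2, (le_max_right _ _).trans g2, g3, ?_⟩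
    have e : (((∑ i, d i : ℕ) : ℕ) : ℝ) - 2 + (2 - κ) = ((∑ i, d i : ℕ) : ℝ) - κ := by ring
    rw [e]
    refine le_trans (le_of_lt g4) ?_
    gcongr
    exact le_max_left _ _

end Pool.Agent.Results.MP_4d5ce1_nt.QuadraticPointsExactExponent
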